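import Mathlib
import Pool.Agent.W522.U.A5

/-!
# Lie algebras of families of operators: the types of the components
-/

set_option linter.unusedSectionVars false

namespace Pool.Agent.Y4.T

open Module Pool.Agent.W522.U

noncomputable section

variable {K : Type*} [Field K] [CharZero K]

section family

variable {I : Type*} [DecidableEq I] {E : I → Type*} [∀ i, AddCommGroup (E i)]
  [∀ i, Module K (E i)] [∀ i, FiniteDimensional K (E i)] {G : Type*} [Group G]
  (r : ∀ i, Representation K G (E i))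

variable {r} {𝔥 : Submodule K (∀ i, Module.End K (E i))} (h𝔥 : LieFam r 𝔥)

/-- The types of the components. -/
structure Types (r : ∀ i, Representation K G (E i)) (𝔥 : Submodule K (∀ i, Module.End K (E i)))
    (act : I → Prop) (sd : I → Prop) (ω : ∀ i, E i →ₗ[K] Dual K (E i)) (χ : I → G → K) : Prop where
  irr : ∀ i, act i → Irr (r i)
  alt : ∀ i, sd i → ∀ u, ω i u u = 0
  inj : ∀ i, sd i → Function.Injective (ω i)
  sim : ∀ i, sd i → ∀ g u v, ω i (r i g u) (r i g v) = χ i g * ω i u v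
  sp : ∀ i, sd i → ∀ X ∈ 𝔥, ∀ u v, ω i (X i u) v + ω i u (X i v) = 0
  nf : ∀ i, act i → ¬ sd i → ∀ (β : E i →ₗ[K] Dual K (E i)) (ψ : G → K), Function.Injective β →
    (∀ g u v, β (r i g u) (r i g v) = ψ g * β u v) → False
  nil : ∀ i, act i → ∃ N ∈ 𝔥, (∀ j, N j * N j = 0) ∧ ∃ (u : E i) (φ : Dual K (E i)),
    u ≠ 0 ∧ φ ≠ 0 ∧ φ u = 0 ∧ N i = φ.smulRight u

variable {act sd : I → Prop} {ω : ∀ i, E i →ₗ[K] Dual K (E i)} {χ : I → G → K}
  (hT : Types r 𝔥 act sd ω χ)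

/-- The rank one operators of the component `i`. -/
def Ty (sd : I → Prop) (ω : ∀ i, E i →ₗ[K] Dual K (E i)) (i : I) (u : E i)
    (φ : Dual K (E i)) : Prop := φ u = 0 ∧ (sd i → ∃ c : K, φ = c • ω i u)

include hT in
theorem skew {i : I} (hi : sd i) (u v : E i) : ω i u v = -ω i v u := by
  have h1 := hT.alt i hi (u + v)
  simp only [map_add, LinearMap.add_apply, hT.alt i hi, zero_add, add_zero] at h1
  linear_combination h1

include hT in
theorem nondeg {i : I} (hi : sd i) {u : E i} (hu : u ≠ 0) : ∃ v, ω i u v ≠ 0 := by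
  by_contra hcon
  push Not at hcon
  apply hu
  apply hT.inj i hi
  rw [map_zero]
  ext v
  exact hcon v

include hT in
theorem rk_sp {i : I} (hi : sd i) {X : ∀ i, Module.End K (E i)} (hX : X ∈ 𝔥) {u : E i}
    {φ : Dual K (E i)} (hXi : X i = φ.smulRight u) (hu : u ≠ 0) : ∃ c : K, φ = c • ω i u := by
  obtain ⟨w, hw⟩ := nondeg hT hi hu
  refine ⟨φ w / ω i u w, ?_⟩
  ext v
  have h1 := hT.sp i hi X hX v w
  rw [hXi, LinearMap.smulRight_apply, LinearMap.smulRight_apply, map_smul, map_smul,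
    LinearMap.smul_apply, smul_eq_mul, smul_eq_mul, skew hT hi v u] at h1
  rw [LinearMap.smul_apply, smul_eq_mul]
  field_simp
  linear_combination h1

include hT in
/-- From the main theorem to types. -/
theorem ty_of_main {i : I} (hi : act i) {P : E i → Dual K (E i) → Prop} (hP : Sys (r i) P)
    (hPX : ∀ u φ, P u φ → ∃ X ∈ 𝔥, X i = φ.smulRight u)
    (hne : ∃ u φ, u ≠ 0 ∧ φ ≠ 0 ∧ P u φ) : ∀ u φ, Ty sd ω i u φ → P u φ := by
  intro u φ hφ
  rcases main hP (hT.irr i hi) hne with ⟨_, h⟩ | ⟨β, ψ, h1, h2, h3, h4⟩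
  · exact h u φ hφ.1
  · by_cases hs : sd i
    · obtain ⟨c, hc⟩ := hφ.2 hs
      by_cases hu : u = 0
      · rw [hc, hu, map_zero, smul_zero]
        exact hP.zero _
      · obtain ⟨X, hX, hXi⟩ := hPX u (β u) (h3 u)
        obtain ⟨d, hd⟩ := rk_sp hT hs hX hXi hu
        have hd0 : d ≠ 0 := by
          rintro rfl
          rw [zero_smul, ← map_zero β] at hd
          exact hu (h2 hd)
        rw [hc]
        apply hP.smul
        have h5 : ω i u = d⁻¹ • β u := by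
          rw [hd, smul_smul, inv_mul_cancel₀ hd0, one_smul]
        rw [h5]
        exact hP.smul _ _ _ (h3 u)
    · exact (hT.nf i hi hs β ψ h2 h4).elim

include hT h𝔥 in
theorem finrank_sl {i : I} (hi : act i) (hs : ¬ sd i) : 2 < finrank K (E i) := by
  obtain ⟨N, hN, _, u, φ, hu, hφ, hφu, hNi⟩ := hT.nil i hi
  rcases main (sys_one h𝔥 i) (hT.irr i hi) ⟨u, φ, hu, hφ, hφu, N, hN, hNi⟩ with
    ⟨h, _⟩ | ⟨β, ψ, _, h2, _, h4⟩
  · exact h
  · exact (hT.nf i hi hs β ψ h2 h4).elim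

include hT in
/-- All operators of the type of `i` are in a Lie family which contains one. -/
theorem full_sub {i : I} (hi : act i) {𝔥' : Submodule K (∀ i, Module.End K (E i))}
    (h𝔥' : LieFam r 𝔥') (hle : 𝔥' ≤ 𝔥)
    (hne : ∃ (u : E i) (φ : Dual K (E i)), u ≠ 0 ∧ φ ≠ 0 ∧ φ u = 0 ∧
      ∃ X ∈ 𝔥', X i = φ.smulRight u) :
    ∀ u φ, Ty sd ω i u φ → ∃ X ∈ 𝔥', X i = φ.smulRight u := by
  intro u φ hφ
  refine (ty_of_main hT hi (sys_one h𝔥' i) ?_ hne u φ hφ).2
  rintro u φ ⟨_, X, hX, hXi⟩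
  exact ⟨X, hle hX, hXi⟩

include hT h𝔥 in
theorem full {i : I} (hi : act i) : ∀ u φ, Ty sd ω i u φ → ∃ X ∈ 𝔥, X i = φ.smulRight u := by
  obtain ⟨N, hN, _, u, φ, hu, hφ, hφu, hNi⟩ := hT.nil i hi
  exact full_sub hT hi h𝔥 le_rfl ⟨u, φ, hu, hφ, hφu, N, hN, hNi⟩

end family

end

end Pool.Agent.Y4.T
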