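import Mathlib
import Pool.Agent.Y4.T.A1

/-!
# Lie algebras of families of operators: two components
-/

set_option linter.unusedSectionVars false

namespace Pool.Agent.Y4.T

open Module Pool.Agent.W522.U

noncomputable section

variable {K : Type*} [Field K] [CharZero K]
  {I : Type*} [DecidableEq I] {E : I → Type*} [∀ i, AddCommGroup (E i)]
  [∀ i, Module K (E i)] [∀ i, FiniteDimensional K (E i)] {G : Type*} [Group G]
  {r : ∀ i, Representation K G (E i)}
  {𝔥 : Submodule K (∀ i, Module.End K (E i))} (h𝔥 : LieFam r 𝔥)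
  {act sd : I → Prop} {ω : ∀ i, E i →ₗ[K] Dual K (E i)} {χ : I → G → K}
  (hT : Types r 𝔥 act sd ω χ)

include hT in
/-- An operator that is not a scalar is detected by the rank one operators. -/
theorem nonscalar {j : I} (z : Module.End K (E j))
    (hz : sd j → ∀ u v, ω j (z u) v + ω j u (z v) = 0) (hns : ¬ ∃ c : K, z = c • 1) :
    ∃ w ψ, Ty sd ω j w ψ ∧ ψ (z w) ≠ 0 := by
  by_contra hcon
  push Not at hcon
  by_cases hs : sd j
  · apply hns
    have h1 : ∀ w, ω j w (z w) = 0 := by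
      intro w
      exact hcon w (ω j w) ⟨hT.alt j hs w, fun _ => ⟨1, (one_smul _ _).symm⟩⟩
    refine ⟨0, ?_⟩
    rw [zero_smul]
    ext v
    rw [LinearMap.zero_apply]
    by_contra h2
    obtain ⟨w, hw⟩ := nondeg hT hs h2
    apply hw
    have h3 := h1 (v + w)
    simp only [map_add, LinearMap.add_apply, h1] at h3
    have h4 := hz hs v w
    have h5 := skew hT hs w (z v)
    have h6 : (2 : K) * ω j (z v) w = 0 := by linear_combination -h3 + h5 + h4
    exact (mul_eq_zero.1 h6).resolve_left two_ne_zero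
  · apply hns
    obtain ⟨c, hc⟩ := prop_const (LinearMap.id : E j →ₗ[K] E j) z Function.injective_id (by
      intro w
      by_cases h : z w ∈ Submodule.span K {w}
      · obtain ⟨c, hc⟩ := Submodule.mem_span_singleton.1 h
        exact ⟨c, hc.symm⟩
      · obtain ⟨φ, h1, h2⟩ := exists_sep h
        exact absurd (hcon w φ ⟨h1, fun h3 => absurd h3 hs⟩) h2)
    refine ⟨c, ?_⟩
    ext v
    exact hc v

/-- The span of the rank one operators of type `j`. -/
def TS (sd : I → Prop) (ω : ∀ i, E i →ₗ[K] Dual K (E i)) (j : I) :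
    Submodule K (Module.End K (E j)) :=
  Submodule.span K {x | ∃ w ψ, Ty sd ω j w ψ ∧ x = ψ.smulRight w}

include hT in
theorem span_types {j : I} (n : Module.End K (E j)) (hn : n * n = 0)
    (hsp : sd j → ∀ u v, ω j (n u) v + ω j u (n v) = 0) : n ∈ TS sd ω j := by
  classical
  by_cases hs : sd j
  · -- squares
    have hsq : ∀ p : E j, (ω j p).smulRight p ∈ TS sd ω j := fun p =>
      Submodule.subset_span ⟨p, ω j p, ⟨hT.alt j hs p, fun _ => ⟨1, (one_smul _ _).symm⟩⟩, rfl⟩
    have hpq : ∀ p q : E j, (ω j p).smulRight q + (ω j q).smulRight p ∈ TS sd ω j := by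
      intro p q
      have h1 : (ω j p).smulRight q + (ω j q).smulRight p =
          (ω j (p + q)).smulRight (p + q) - (ω j p).smulRight p - (ω j q).smulRight q := by
        ext v
        simp only [LinearMap.add_apply, LinearMap.sub_apply, LinearMap.smulRight_apply, map_add]
        module
      rw [h1]
      exact Submodule.sub_mem _ (Submodule.sub_mem _ (hsq _) (hsq _)) (hsq _)
    let b := Module.finBasis K (E j)
    -- the form is surjective
    have hsurj : Function.Surjective (ω j) := by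
      have h1 : finrank K (E j) = finrank K (Dual K (E j)) := Subspace.dual_finrank_eq.symm
      exact (LinearMap.injective_iff_surjective_of_finrank_eq_finrank h1).1 (hT.inj j hs)
    choose q hq using fun k => hsurj (b.coord k)
    have h1 : n = ∑ k, (ω j (q k)).smulRight (n (b k)) := by
      refine b.ext fun l => ?_
      rw [LinearMap.sum_apply, Finset.sum_eq_single l]
      · rw [LinearMap.smulRight_apply, hq, Basis.coord_apply, b.repr_self,
          Finsupp.single_eq_same, one_smul]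
      · intro k _ hk
        rw [LinearMap.smulRight_apply, hq, Basis.coord_apply, b.repr_self,
          Finsupp.single_eq_of_ne hk, zero_smul]
      · intro h
        exact absurd (Finset.mem_univ _) h
    have h2 : n = ∑ k, (ω j (n (b k))).smulRight (q k) := by
      ext v
      rw [← sub_eq_zero]
      by_contra h3
      obtain ⟨w, hw⟩ := nondeg hT hs h3
      apply hw
      rw [map_sub, LinearMap.sub_apply, LinearMap.sum_apply, map_sum, LinearMap.sum_apply]
      have h4 : ∀ k, ω j (((ω j (n (b k))).smulRight (q k)) v) w =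
          ω j ((ω j (q k) w) • n (b k)) v := by
        intro k
        rw [LinearMap.smulRight_apply, map_smul, map_smul, LinearMap.smul_apply,
          LinearMap.smul_apply, smul_eq_mul, smul_eq_mul, mul_comm]
      rw [Finset.sum_congr rfl (fun k _ => h4 k), ← LinearMap.sum_apply, ← map_sum]
      have h5 : ∑ k, (ω j (q k) w) • n (b k) = n w := by
        conv_rhs => rw [h1]
        rw [LinearMap.sum_apply]
        rfl
      rw [h5]
      have h6 := hsp hs v w
      have h7 := skew hT hs (n w) v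
      linear_combination h6 - h7
    have h3 : (2 : K) • n = ∑ k, ((ω j (q k)).smulRight (n (b k)) +
        (ω j (n (b k))).smulRight (q k)) := by
      rw [Finset.sum_add_distrib, ← h1, ← h2, two_smul]
    have h4 : (2 : K) • n ∈ TS sd ω j := by
      rw [h3]
      exact Submodule.sum_mem _ fun k _ => hpq _ _
    have h5 := Submodule.smul_mem _ (2 : K)⁻¹ h4
    rwa [smul_smul, inv_mul_cancel₀ two_ne_zero, one_smul] at h5
  · let b := Module.finBasis K (LinearMap.range n)
    have h1 : n = ∑ k, ((b.coord k).comp n.rangeRestrict).smulRight (b k : E j) := by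
      ext v
      rw [LinearMap.sum_apply]
      have h2 := b.sum_repr (n.rangeRestrict v)
      have h3 := congrArg Subtype.val h2
      change _ = n v at h3
      rw [← h3, AddSubmonoidClass.coe_finsetSum]
      rfl
    rw [h1]
    refine Submodule.sum_mem _ fun k _ => Submodule.subset_span
      ⟨_, _, ⟨?_, fun h => absurd h hs⟩, rfl⟩
    have h2 : n.rangeRestrict (b k : E j) = 0 := by
      apply Subtype.ext
      change n (b k : E j) = 0
      obtain ⟨v, hv⟩ := (b k).2
      rw [← hv, ← Module.End.mul_apply, hn]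
      rfl
    rw [LinearMap.comp_apply, h2, map_zero]

/-- Independence of the components `i` and `j`. -/
def Ind (𝔥 : Submodule K (∀ i, Module.End K (E i))) (i j : I) : Prop :=
  ∃ X ∈ 𝔥, X j = 0 ∧ ∃ (u : E i) (φ : Dual K (E i)), u ≠ 0 ∧ φ ≠ 0 ∧ φ u = 0 ∧
    X i = φ.smulRight u

/-- The subfamily of the elements that vanish in some components. -/
def sub (𝔥 : Submodule K (∀ i, Module.End K (E i))) (J : Set I) :
    Submodule K (∀ i, Module.End K (E i)) where
  carrier := {X | X ∈ 𝔥 ∧ ∀ j ∈ J, X j = 0}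
  zero_mem' := ⟨𝔥.zero_mem, fun _ _ => rfl⟩
  add_mem' := by
    rintro X Y ⟨h1, h2⟩ ⟨h3, h4⟩
    refine ⟨𝔥.add_mem h1 h3, fun j hj => ?_⟩
    rw [Pi.add_apply, h2 j hj, h4 j hj, add_zero]
  smul_mem' := by
    rintro c X ⟨h1, h2⟩
    refine ⟨𝔥.smul_mem _ h1, fun j hj => ?_⟩
    rw [Pi.smul_apply, h2 j hj, smul_zero]

include h𝔥 in
theorem lieFam_sub (J : Set I) : LieFam r (sub 𝔥 J) where
  br := by
    rintro X ⟨h1, h2⟩ Y ⟨h3, h4⟩
    refine ⟨h𝔥.br _ h1 _ h3, fun j hj => ?_⟩
    unfold brk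
    rw [h2 j hj, zero_mul, mul_zero, sub_zero]
  conj := by
    rintro g X ⟨h1, h2⟩
    refine ⟨h𝔥.conj g _ h1, fun j hj => ?_⟩
    change r j g * X j * r j g⁻¹ = 0
    rw [h2 j hj, mul_zero, zero_mul]

theorem rk_mul {V : Type*} [AddCommGroup V] [Module K V] (u : V) (φ : Dual K V)
    (hφ : φ u = 0) : (φ.smulRight u * φ.smulRight u : Module.End K V) = 0 := by
  ext v
  simp only [Module.End.mul_apply, LinearMap.smulRight_apply, map_smul, hφ, smul_zero,
    zero_smul, LinearMap.zero_apply]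

include h𝔥 hT in
/-- If the components are not independent then an element that vanishes in one is scalar in
the other. -/
theorem ker_scalar {i j : I} (hi : act i) (hj : act j) (hij : ¬ Ind 𝔥 i j)
    {X : ∀ i, Module.End K (E i)} (hX : X ∈ 𝔥) (hXi : X i = 0) : ∃ c : K, X j = c • 1 := by
  by_contra hns
  apply hij
  obtain ⟨w, ψ, hwψ, hne⟩ := nonscalar hT (X j) (fun hs => hT.sp j hs X hX) hns
  obtain ⟨Y, hY, hYj⟩ := full h𝔥 hT hj w ψ hwψ
  have hZ : brk Y (brk Y X) ∈ sub 𝔥 {i} := by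
    refine ⟨h𝔥.br _ hY _ (h𝔥.br _ hY _ hX), ?_⟩
    intro k hk
    rw [Set.mem_singleton_iff] at hk
    subst hk
    simp only [brk, hXi, mul_zero, zero_mul, sub_zero]
  have hZj : brk Y (brk Y X) j = (((-2 : K) * ψ (X j w)) • ψ).smulRight w := by
    ext v
    simp only [brk, hYj, LinearMap.sub_apply, Module.End.mul_apply, LinearMap.smulRight_apply,
      map_sub, map_smul, hwψ.1, smul_eq_mul, LinearMap.smul_apply]
    module
  have hψ0 : ψ ≠ 0 := by
    rintro rfl
    exact hne rfl
  have hw0 : w ≠ 0 := by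
    rintro rfl
    rw [map_zero, map_zero] at hne
    exact hne rfl
  have hall := full_sub hT hj (lieFam_sub h𝔥 {i}) (fun X hX => hX.1)
    ⟨w, ((-2 : K) * ψ (X j w)) • ψ, hw0,
      smul_ne_zero (mul_ne_zero (by norm_num) hne) hψ0,
      by rw [LinearMap.smul_apply, hwψ.1, smul_zero], _, hZ, hZj⟩
  obtain ⟨N, hN, hN2, u, φ, hu, hφ, hφu, hNi⟩ := hT.nil i hi
  have h1 := span_types hT (N j) (hN2 j) (fun hs => hT.sp j hs N hN)
  have h2 : ∀ x ∈ TS sd ω j, ∃ X' ∈ sub 𝔥 {i}, X' j = x := by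
    intro x hx
    unfold TS at hx
    induction hx using Submodule.span_induction with
    | mem x hx =>
      obtain ⟨w', ψ', h3, rfl⟩ := hx
      exact hall w' ψ' h3
    | zero => exact ⟨0, Submodule.zero_mem _, rfl⟩
    | add a b _ _ ha hb =>
      obtain ⟨A, hA, rfl⟩ := ha
      obtain ⟨B, hB, rfl⟩ := hb
      exact ⟨A + B, Submodule.add_mem _ hA hB, rfl⟩
    | smul c a _ ha =>
      obtain ⟨A, hA, rfl⟩ := ha
      exact ⟨c • A, Submodule.smul_mem _ _ hA, rfl⟩
  obtain ⟨X', hX', hX'j⟩ := h2 _ h1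
  refine ⟨N - X', 𝔥.sub_mem hN hX'.1, ?_, u, φ, hu, hφ, hφu, ?_⟩
  · rw [Pi.sub_apply, hX'j, sub_self]
  · rw [Pi.sub_apply, hX'.2 i rfl, sub_zero, hNi]

theorem scalar_rk {V : Type*} [AddCommGroup V] [Module K V] {u : V} {φ : Dual K V}
    (hu : u ≠ 0) (hφu : φ u = 0) {c : K} (h : (φ.smulRight u : Module.End K V) = c • 1) :
    φ = 0 := by
  have h1 := congrArg (fun f : Module.End K V => f u) h
  simp only [LinearMap.smulRight_apply, hφu, zero_smul, LinearMap.smul_apply,
    Module.End.one_apply] at h1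
  have h2 : c = 0 := (smul_eq_zero.1 h1.symm).resolve_right hu
  rw [h2, zero_smul] at h
  by_contra h3
  exact smulRight_ne hu h3 h

include h𝔥 hT in
theorem ind_symm {i j : I} (hi : act i) (hj : act j) (hij : ¬ Ind 𝔥 i j) : ¬ Ind 𝔥 j i := by
  rintro ⟨X, hX, hXi, u, φ, hu, hφ, hφu, hXj⟩
  obtain ⟨c, hc⟩ := ker_scalar h𝔥 hT hi hj hij hX hXi
  rw [hXj] at hc
  exact hφ (scalar_rk hu hφu hc)

include h𝔥 hT in
/-- An extremal element has rank at most one. -/
theorem extremal {j : I} (hj : act j) (z : Module.End K (E j)) (hz : z * z = 0)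
    (hsp : sd j → ∀ u v, ω j (z u) v + ω j u (z v) = 0)
    (hex : ∀ Y ∈ 𝔥, ∃ c : K, z * Y j * z = c • z) :
    ∃ (p : E j) (α : Dual K (E j)), α p = 0 ∧ z = α.smulRight p := by
  have hzz : ∀ v, z (z v) = 0 := fun v => by
    rw [← Module.End.mul_apply, hz]
    rfl
  by_cases h0 : z = 0
  · exact ⟨0, 0, rfl, by rw [h0]; ext v; simp⟩
  obtain ⟨w, hw⟩ : ∃ w, z w ≠ 0 := by
    by_contra hcon
    push Not at hcon
    exact h0 (LinearMap.ext hcon)
  obtain ⟨ψ, h1, h2⟩ : ∃ ψ, Ty sd ω j w ψ ∧ ∃ v, ψ (z v) ≠ 0 := by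
    by_cases hs : sd j
    · obtain ⟨v, hv⟩ := nondeg hT hs hw
      refine ⟨ω j w, ⟨hT.alt j hs w, fun _ => ⟨1, (one_smul _ _).symm⟩⟩, v, fun h => hv ?_⟩
      linear_combination hsp hs w v - h
    · have h1 : z w ∉ Submodule.span K {w} := by
        intro h
        obtain ⟨c, hc⟩ := Submodule.mem_span_singleton.1 h
        have h2 := hzz w
        rw [← hc, map_smul, ← hc, smul_smul] at h2
        have hw0 : w ≠ 0 := by
          rintro rfl
          exact hw (map_zero z)
        have h3 := (smul_eq_zero.1 h2).resolve_right hw0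
        have h4 : c = 0 := by
          rcases mul_eq_zero.1 h3 with h4 | h4 <;> exact h4
        rw [h4, zero_smul] at hc
        exact hw hc.symm
      obtain ⟨φ, h2, h3⟩ := exists_sep h1
      exact ⟨φ, ⟨h2, fun h => absurd h hs⟩, w, h3⟩
  obtain ⟨v, hv⟩ := h2
  obtain ⟨Y, hY, hYj⟩ := full h𝔥 hT hj w ψ h1
  obtain ⟨c, hc⟩ := hex Y hY
  have h3 : ∀ x, ψ (z x) • z w = c • z x := by
    intro x
    have h4 := congrArg (fun f : Module.End K (E j) => f x) hc
    simp only [hYj, Module.End.mul_apply, LinearMap.smulRight_apply, map_smul,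
      LinearMap.smul_apply] at h4
    exact h4
  have hc0 : c ≠ 0 := by
    rintro rfl
    have h4 := h3 v
    rw [zero_smul] at h4
    exact (smul_ne_zero hv hw) h4
  refine ⟨z w, c⁻¹ • (ψ.comp z), ?_, ?_⟩
  · rw [LinearMap.smul_apply, LinearMap.comp_apply, hzz, map_zero, smul_zero]
  · ext x
    rw [LinearMap.smulRight_apply, LinearMap.smul_apply, LinearMap.comp_apply, smul_eq_mul,
      mul_smul, h3, smul_smul, inv_mul_cancel₀ hc0, one_smul]

include h𝔥 hT in
/-- The products `Z Y Z` in the second component. -/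
theorem zyz {i j : I} (hi : act i) (hj : act j) (hij : ¬ Ind 𝔥 i j)
    {Z : ∀ i, Module.End K (E i)} (hZ : Z ∈ 𝔥) {u : E i} {φ : Dual K (E i)} (hφ : φ u = 0)
    (hZi : Z i = φ.smulRight u) (hZj : Z j * Z j = 0) {Y : ∀ i, Module.End K (E i)}
    (hY : Y ∈ 𝔥) : Z j * Y j * Z j = φ (Y i u) • Z j := by
  have h1 : brk Z (brk Z Y) + ((2 : K) * φ (Y i u)) • Z ∈ 𝔥 :=
    𝔥.add_mem (h𝔥.br _ hZ _ (h𝔥.br _ hZ _ hY)) (𝔥.smul_mem _ hZ)
  have h2 : (brk Z (brk Z Y) + ((2 : K) * φ (Y i u)) • Z) i = 0 := by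
    ext v
    simp only [Pi.add_apply, Pi.smul_apply, brk, hZi, LinearMap.add_apply, LinearMap.sub_apply,
      Module.End.mul_apply, LinearMap.smulRight_apply, map_sub, map_smul, hφ,
      LinearMap.smul_apply, LinearMap.zero_apply]
    module
  obtain ⟨s, hs⟩ := ker_scalar h𝔥 hT hi hj hij h1 h2
  have h3 : (brk Z (brk Z Y) + ((2 : K) * φ (Y i u)) • Z) j =
      (-2 : K) • (Z j * Y j * Z j - φ (Y i u) • Z j) := by
    have h4 : (brk Z (brk Z Y) + ((2 : K) * φ (Y i u)) • Z) j =
        Z j * (Z j * Y j - Y j * Z j) - (Z j * Y j - Y j * Z j) * Z j +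
          ((2 : K) * φ (Y i u)) • Z j := rfl
    rw [h4, mul_sub, sub_mul, ← mul_assoc (Z j) (Z j), hZj, zero_mul, mul_assoc (Y j),
      hZj, mul_zero, ← mul_assoc (Z j) (Y j)]
    module
  rw [h3] at hs
  have h4 : s • Z j = 0 := by
    have h5 := congrArg (fun f => Z j * f) hs
    simp only [mul_smul_comm, mul_sub, mul_one] at h5
    rw [← mul_assoc, ← mul_assoc, hZj, zero_mul, zero_mul, smul_zero, sub_zero,
      smul_zero] at h5
    exact h5.symm
  rcases smul_eq_zero.1 h4 with h5 | h5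
  · rw [h5, zero_smul] at hs
    have h6 := (smul_eq_zero.1 hs).resolve_left (by norm_num)
    exact sub_eq_zero.1 h6
  · rw [h5, mul_zero, smul_zero]

include h𝔥 hT in
theorem rk_le {i j : I} (hi : act i) (hj : act j) (hij : ¬ Ind 𝔥 i j)
    {Z : ∀ i, Module.End K (E i)} (hZ : Z ∈ 𝔥) {u : E i} {φ : Dual K (E i)} (hφ : φ u = 0)
    (hZi : Z i = φ.smulRight u) (hZj : Z j * Z j = 0) :
    ∃ (p : E j) (α : Dual K (E j)), α p = 0 ∧ Z j = α.smulRight p :=
  extremal h𝔥 hT hj (Z j) hZj (fun hs => hT.sp j hs Z hZ)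
    (fun Y hY => ⟨φ (Y i u), zyz h𝔥 hT hi hj hij hZ hφ hZi hZj hY⟩)

theorem comm_zero {V : Type*} [AddCommGroup V] [Module K V] {p p' : V} {α α' : Dual K V}
    (h2 : α' p' = 0)
    (h : (α.smulRight p * α'.smulRight p' : Module.End K V) = α'.smulRight p' * α.smulRight p) :
    (α.smulRight p * α'.smulRight p' : Module.End K V) = 0 := by
  by_cases h0 : α p' = 0
  · ext v
    simp only [Module.End.mul_apply, LinearMap.smulRight_apply, map_smul, h0, smul_zero,
      zero_smul, LinearMap.zero_apply]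
  · have h3 := congrArg (fun f : Module.End K V => f p') h
    simp only [Module.End.mul_apply, LinearMap.smulRight_apply, map_smul, h2,
      zero_smul, map_zero] at h3
    have h4 : p' ≠ 0 := by
      rintro rfl
      exact h0 (map_zero α)
    have h5 := (smul_eq_zero.1 h3.symm).resolve_left h0
    have h6 : α' p = 0 := (smul_eq_zero.1 h5).resolve_right h4
    rw [h]
    ext v
    simp only [Module.End.mul_apply, LinearMap.smulRight_apply, map_smul, h6, smul_zero,
      zero_smul, LinearMap.zero_apply]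

theorem scalar_trace {V : Type*} [AddCommGroup V] [Module K V] [FiniteDimensional K V]
    (hV : 0 < finrank K V) {c : K} (h : LinearMap.trace K V (c • (1 : Module.End K V)) = 0) :
    c = 0 := by
  rw [map_smul, LinearMap.trace_one, smul_eq_mul] at h
  exact (mul_eq_zero.1 h).resolve_right (Nat.cast_ne_zero.2 hV.ne')

include hT in
theorem finrank_pos' {j : I} (hj : act j) : 0 < finrank K (E j) := by
  obtain ⟨N, _, _, u, φ, hu, _⟩ := hT.nil j hj
  have _ : Nontrivial (E j) := ⟨u, 0, hu⟩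
  exact finrank_pos

include h𝔥 hT in
/-- Elements of trace zero that vanish in one component vanish in the other. -/
theorem ker_zero {i j : I} (hi : act i) (hj : act j) (hij : ¬ Ind 𝔥 i j)
    {X : ∀ i, Module.End K (E i)} (hX : X ∈ 𝔥) (hXi : X i = 0)
    (htr : LinearMap.trace K (E j) (X j) = 0) : X j = 0 := by
  obtain ⟨c, hc⟩ := ker_scalar h𝔥 hT hi hj hij hX hXi
  rw [hc] at htr
  rw [hc, scalar_trace (finrank_pos' hT hj) htr, zero_smul]

include h𝔥 hT in
theorem add_aux {i j : I} (hi : act i) (hj : act j) (hij : ¬ Ind 𝔥 i j)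
    {X X' : ∀ i, Module.End K (E i)} (hX : X ∈ 𝔥) (hX' : X' ∈ 𝔥)
    (hcom : brk X X' i = 0) {p p' : E j} {α α' : Dual K (E j)} (h1 : α p = 0) (h2 : α' p' = 0)
    (hXj : X j = α.smulRight p) (hXj' : X' j = α'.smulRight p') :
    (X + X') j * (X + X') j = 0 := by
  have h3 := ker_zero h𝔥 hT hi hj hij (h𝔥.br _ hX _ hX') hcom (by
    change LinearMap.trace K (E j) (X j * X' j - X' j * X j) = 0
    rw [map_sub, LinearMap.trace_mul_comm, sub_self])
  have h4 : X j * X' j - X' j * X j = 0 := h3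
  rw [sub_eq_zero, hXj, hXj'] at h4
  have h5 := comm_zero h2 h4
  rw [Pi.add_apply, hXj, hXj', add_mul, mul_add, mul_add, ← h4, h5, rk_mul p α h1,
    rk_mul p' α' h2]
  simp

include h𝔥 hT in
/-- The rank one nilpotent operators in the `i`-th component, whose `j`-th component is also of
rank at most one. -/
theorem sys_two {i j : I} (hi : act i) (hj : act j) (hij : ¬ Ind 𝔥 i j) :
    Sys (r i) (fun u φ => φ u = 0 ∧ ∃ X ∈ 𝔥, X i = φ.smulRight u ∧
      ∃ (p : E j) (α : Dual K (E j)), α p = 0 ∧ X j = α.smulRight p) where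
  ker := fun u φ h => h.1
  zero := fun u => ⟨rfl, 0, 𝔥.zero_mem, by ext v; simp, 0, 0, rfl, by ext v; simp⟩
  add := by
    rintro u φ φ' ⟨h1, X, hX, hXi, p, α, h2, hXj⟩ ⟨h1', X', hX', hXi', p', α', h2', hXj'⟩
    have h0 : (φ + φ') u = 0 := by rw [LinearMap.add_apply, h1, h1', add_zero]
    have h3 : (X + X') i = (φ + φ').smulRight u := by
      rw [Pi.add_apply, hXi, hXi']
      ext v
      simp only [LinearMap.add_apply, LinearMap.smulRight_apply, add_smul]
    refine ⟨h0, X + X', 𝔥.add_mem hX hX', h3, ?_⟩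
    refine rk_le h𝔥 hT hi hj hij (𝔥.add_mem hX hX') h0 h3
      (add_aux h𝔥 hT hi hj hij hX hX' ?_ h2 h2' hXj hXj')
    unfold brk
    rw [hXi, hXi']
    ext v
    simp only [LinearMap.sub_apply, Module.End.mul_apply, LinearMap.smulRight_apply, map_smul,
      h1, h1', smul_zero, zero_smul, sub_zero, LinearMap.zero_apply]
  smul := by
    rintro c u φ ⟨h1, X, hX, hXi, p, α, h2, hXj⟩
    refine ⟨by rw [LinearMap.smul_apply, h1, smul_zero], c • X, 𝔥.smul_mem _ hX, ?_, p, c • α,
      by rw [LinearMap.smul_apply, h2, smul_zero], ?_⟩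
    · rw [Pi.smul_apply, hXi]
      ext v
      simp only [LinearMap.smul_apply, LinearMap.smulRight_apply, smul_eq_mul, smul_smul]
    · rw [Pi.smul_apply, hXj]
      ext v
      simp only [LinearMap.smul_apply, LinearMap.smulRight_apply, smul_eq_mul, smul_smul]
  addu := by
    rintro u v φ ⟨h1, X, hX, hXi, p, α, h2, hXj⟩ ⟨h1', X', hX', hXi', p', α', h2', hXj'⟩
    have h0 : φ (u + v) = 0 := by rw [map_add, h1, h1', add_zero]
    have h3 : (X + X') i = φ.smulRight (u + v) := by
      rw [Pi.add_apply, hXi, hXi']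
      ext v
      simp only [LinearMap.add_apply, LinearMap.smulRight_apply, smul_add]
    refine ⟨h0, X + X', 𝔥.add_mem hX hX', h3, ?_⟩
    refine rk_le h𝔥 hT hi hj hij (𝔥.add_mem hX hX') h0 h3
      (add_aux h𝔥 hT hi hj hij hX hX' ?_ h2 h2' hXj hXj')
    unfold brk
    rw [hXi, hXi']
    ext v
    simp only [LinearMap.sub_apply, Module.End.mul_apply, LinearMap.smulRight_apply, map_smul,
      h1, h1', smul_zero, zero_smul, sub_zero, LinearMap.zero_apply]
  smulu := by
    rintro c u φ ⟨h1, X, hX, hXi, p, α, h2, hXj⟩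
    refine ⟨by rw [map_smul, h1, smul_zero], c • X, 𝔥.smul_mem _ hX, ?_, p, c • α,
      by rw [LinearMap.smul_apply, h2, smul_zero], ?_⟩
    · rw [Pi.smul_apply, hXi]
      ext v
      simp only [LinearMap.smul_apply, LinearMap.smulRight_apply]
      rw [smul_comm]
    · rw [Pi.smul_apply, hXj]
      ext v
      simp only [LinearMap.smul_apply, LinearMap.smulRight_apply, smul_eq_mul, smul_smul]
  exp := by
    rintro u φ v ψ ⟨h1, X, hX, hXi, p, α, h2, hXj⟩ ⟨h1', X', hX', hXi', p', α', h2', hXj'⟩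
    refine ⟨?_, _, exp_mem h𝔥 hX hX', exp_comp hXi h1 hXi', _, _, ?_, exp_comp hXj h2 hXj'⟩
    · simp only [LinearMap.sub_apply, LinearMap.smul_apply, map_add, map_smul, smul_eq_mul, h1,
        h1']
      ring
    · simp only [LinearMap.sub_apply, LinearMap.smul_apply, map_add, map_smul, smul_eq_mul, h2,
        h2']
      ring
  conj := by
    rintro g u φ ⟨h1, X, hX, hXi, p, α, h2, hXj⟩
    refine ⟨by rw [LinearMap.comp_apply, r_inv, h1], _, h𝔥.conj g X hX, ?_, r j g p,
      α.comp (r j g⁻¹), by rw [LinearMap.comp_apply, r_inv, h2], ?_⟩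
    · change r i g * X i * r i g⁻¹ = _
      rw [hXi, conj_one]
    · change r j g * X j * r j g⁻¹ = _
      rw [hXj, conj_one]

include h𝔥 hT in
theorem full_two {i j : I} (hi : act i) (hj : act j) (hij : ¬ Ind 𝔥 i j) :
    ∀ u φ, Ty sd ω i u φ → ∃ X ∈ 𝔥, X i = φ.smulRight u ∧
      ∃ (p : E j) (α : Dual K (E j)), α p = 0 ∧ X j = α.smulRight p := by
  intro u φ hφ
  refine (ty_of_main hT hi (sys_two h𝔥 hT hi hj hij) ?_ ?_ u φ hφ).2
  · rintro u φ ⟨_, X, hX, hXi, _⟩
    exact ⟨X, hX, hXi⟩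
  · obtain ⟨N, hN, hN2, u, φ, hu, hφ, hφu, hNi⟩ := hT.nil i hi
    exact ⟨u, φ, hu, hφ, hφu, N, hN, hNi, rk_le h𝔥 hT hi hj hij hN hφu hNi (hN2 j)⟩

end

end Pool.Agent.Y4.T
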