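import Mathlib
import Pool.Agent.Y4.T.A3

/-!
# Independence of the components
-/

set_option linter.unusedSectionVars false

namespace Pool.Agent.Y4.T

open Module Pool.Agent.W522.U

noncomputable section

variable {K : Type*} [Field K] [CharZero K]

section family

variable {I : Type*} [DecidableEq I] {E : I → Type*} [∀ i, AddCommGroup (E i)]
  [∀ i, Module K (E i)] [∀ i, FiniteDimensional K (E i)] {G : Type*} [Group G]
  {r : ∀ i, Representation K G (E i)}
  {𝔥 : Submodule K (∀ i, Module.End K (E i))} (h𝔥 : LieFam r 𝔥)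
  {act sd : I → Prop} {ω : ∀ i, E i →ₗ[K] Dual K (E i)} {χ : I → G → K}
  (hT : Types r 𝔥 act sd ω χ)

/-- No twisted homomorphisms from `V` to `W` or its dual. -/
def NoTwist {V W G : Type*} [AddCommGroup V] [Module K V] [AddCommGroup W]
    [Module K W] [Group G] (rV : Representation K G V) (rW : Representation K G W) : Prop :=
  (∀ (T : V →ₗ[K] W) (ψ : G → K), (∀ g u, T (rV g u) = ψ g • rW g (T u)) → T = 0) ∧
  (∀ (T : V →ₗ[K] Dual K W) (ψ : G → K),
    (∀ g u, T (rV g u) = ψ g • Representation.dual rW g (T u)) → T = 0)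

include h𝔥 hT in
theorem ind_sl {i j : I} (hi : act i) (hj : act j) (hs : ¬ sd i)
    (hN : NoTwist (r i) (r j)) : Ind 𝔥 i j := by
  by_contra hij
  have hp : PairSL (r i) (r j) (𝔥.map (LinearMap.prod (LinearMap.proj i) (LinearMap.proj j))) :=
    { br := by
        rintro _ ⟨X, hX, rfl⟩ _ ⟨Y, hY, rfl⟩
        exact ⟨_, h𝔥.br X hX Y hY, rfl⟩
      conj := by
        rintro g _ ⟨X, hX, rfl⟩
        exact ⟨_, h𝔥.conj g X hX, rfl⟩
      ker := by
        rintro y ⟨X, hX, hXy⟩ hy
        have h1 : X i = 0 := congrArg Prod.fst hXy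
        have h2 : X j = y := congrArg Prod.snd hXy
        rw [← h2] at hy ⊢
        exact ker_zero h𝔥 hT hi hj hij hX h1 hy
      rk := by
        intro u φ hφ
        obtain ⟨X, hX, hXi, p, α, h1, hXj⟩ := full_two h𝔥 hT hi hj hij u φ
          ⟨hφ, fun h => absurd h hs⟩
        refine ⟨p, α, h1, X, hX, ?_⟩
        rw [← hXi, ← hXj]
        rfl
      inj := by
        rintro u φ hu hφ hφu ⟨X, hX, hXy⟩
        have h1 : X i = φ.smulRight u := congrArg Prod.fst hXy
        have h2 : X j = 0 := congrArg Prod.snd hXy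
        exact hij ⟨X, hX, h2, u, φ, hu, hφ, hφu, h1⟩
      dim := finrank_sl h𝔥 hT hi hs }
  rcases sl_pair hp with ⟨T, ψ, h1, h2⟩ | ⟨T, ψ, h1, h2⟩
  · exact h1 (hN.1 T ψ h2)
  · exact h1 (hN.2 T ψ h2)

include h𝔥 hT in
/-- **Independence**. -/
theorem independent {i j : I} (hi : act i) (hj : act j) (hN : NoTwist (r i) (r j))
    (hN' : NoTwist (r j) (r i)) : Ind 𝔥 i j := by
  by_cases hsi : sd i
  · by_cases hsj : sd j
    · by_contra hij
      obtain ⟨T, ψ, h1, h2⟩ := sp_sp h𝔥 hT hi hj hsi hsj hij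
      exact h1 (hN.1 T ψ h2)
    · by_contra hij
      exact ind_symm h𝔥 hT hi hj hij (ind_sl h𝔥 hT hj hi hsj hN')
  · exact ind_sl h𝔥 hT hi hj hsi hN

include h𝔥 hT in
/-- All rank one operators of type `i` that vanish in the other components. -/
theorem full_indep {i : I} (hi : act i) (J : Finset I) (hJ : ∀ j ∈ J, Ind 𝔥 i j) :
    ∀ u φ, Ty sd ω i u φ → ∃ X ∈ 𝔥, X i = φ.smulRight u ∧ ∀ j ∈ J, X j = 0 := by
  classical
  have key : ∀ u φ, Ty sd ω i u φ → ∃ X ∈ sub 𝔥 (↑J : Set I), X i = φ.smulRight u := by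
    induction J using Finset.induction_on with
    | empty =>
      intro u φ hφ
      obtain ⟨X, hX, hXi⟩ := full h𝔥 hT hi u φ hφ
      exact ⟨X, ⟨hX, fun j hj => by simp at hj⟩, hXi⟩
    | insert j J hj ih =>
      have ih := ih (fun k hk => hJ k (Finset.mem_insert_of_mem hk))
      obtain ⟨Y₀, hY₀, hY₀j, w₀, ψ₀, hw₀, hψ₀, hψw₀, hY₀i⟩ := hJ j (Finset.mem_insert_self _ _)
      have hfj := full_sub hT hi (lieFam_sub h𝔥 {j}) (fun X hX => hX.1)
        ⟨w₀, ψ₀, hw₀, hψ₀, hψw₀, Y₀, ⟨hY₀, fun k hk => by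
          rw [Set.mem_singleton_iff] at hk
          subst hk
          exact hY₀j⟩, hY₀i⟩
      refine full_sub hT hi (lieFam_sub h𝔥 _) (fun X hX => hX.1) ?_
      -- a pair of the type of `i`
      obtain ⟨u, φ, w, ψ, h1, h2, h3, h4⟩ : ∃ (u : E i) (φ : Dual K (E i)) (w : E i)
          (ψ : Dual K (E i)), Ty sd ω i u φ ∧ Ty sd ω i w ψ ∧ ψ u ≠ 0 ∧ φ w ≠ 0 := by
        by_cases hs : sd i
        · obtain ⟨w, hw⟩ := nondeg hT hs hw₀
          refine ⟨w₀, ω i w₀, w, ω i w, ty_self hT hs w₀, ty_self hT hs w, ?_, hw⟩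
          rw [skew hT hs]
          exact neg_ne_zero.2 hw
        · obtain ⟨w, hw⟩ := exists_one hψ₀
          have h5 : w₀ ∉ Submodule.span K {w} := by
            intro h
            obtain ⟨a, rfl⟩ := Submodule.mem_span_singleton.1 h
            rw [map_smul, hw, smul_eq_mul, mul_one] at hψw₀
            rw [hψw₀, zero_smul] at hw₀
            exact hw₀ rfl
          obtain ⟨ψ, h6, h7⟩ := exists_sep h5
          refine ⟨w₀, ψ₀, w, ψ, ⟨hψw₀, fun h => absurd h hs⟩, ⟨h6, fun h => absurd h hs⟩, h7, ?_⟩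
          rw [hw]
          exact one_ne_zero
      obtain ⟨X, hX, hXi⟩ := ih u φ h1
      obtain ⟨Y, hY, hYi⟩ := hfj w ψ h2
      have hu : u ≠ 0 := by
        rintro rfl
        exact h3 (map_zero ψ)
      have hφ : φ ≠ 0 := by
        rintro rfl
        exact h4 rfl
      refine ⟨u, ((-2 : K) * (ψ u * φ w)) • φ, hu, smul_ne_zero (mul_ne_zero (by norm_num)
        (mul_ne_zero h3 h4)) hφ, by rw [LinearMap.smul_apply, h1.1, smul_zero],
        brk X (brk X Y), ⟨h𝔥.br _ hX.1 _ (h𝔥.br _ hX.1 _ hY.1), ?_⟩, ?_⟩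
      · intro k hk
        rw [Finset.coe_insert, Set.mem_insert_iff] at hk
        rcases hk with rfl | hk
        · have h5 := hY.2 k rfl
          simp only [brk, h5, mul_zero, zero_mul, sub_zero]
        · have h5 := hX.2 k hk
          simp only [brk, h5, mul_zero, zero_mul, sub_zero]
      · ext v
        simp only [brk, hXi, hYi, LinearMap.sub_apply, Module.End.mul_apply,
          LinearMap.smulRight_apply, map_sub, map_smul, h1.1, smul_eq_mul, LinearMap.smul_apply]
        module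
  intro u φ hφ
  obtain ⟨X, hX, hXi⟩ := key u φ hφ
  exact ⟨X, hX.1, hXi, fun j hj => hX.2 j hj⟩

end family

end

end Pool.Agent.Y4.T
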