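import Mathlib
import Pool.Agent.W522.U.B2
import Pool.Agent.Y4.T.A5

/-!
# All rank one operators of one component: twists of the dual in dimension two
-/

set_option linter.unusedSectionVars false

namespace Pool.Agent.Y4.T

open Module Pool.Agent.H204R3.SP Pool.Agent.H204R3.GP Pool.Agent.W522.U

noncomputable section

variable {K : Type*} [Field K] [CharZero K]

section two

variable {V : Type*} [AddCommGroup V] [Module K V] [FiniteDimensional K V]

/-- The determinant with respect to a basis. -/
def dt (f : Basis (Fin 2) K V) : V →ₗ[K] Dual K V :=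
  LinearMap.mk₂ K (fun u v => f.repr u 0 * f.repr v 1 - f.repr u 1 * f.repr v 0)
    (fun u u' v => by simp only [map_add, Finsupp.add_apply]; ring)
    (fun c u v => by simp only [map_smul, Finsupp.smul_apply, smul_eq_mul]; ring)
    (fun u v v' => by simp only [map_add, Finsupp.add_apply]; ring)
    (fun c u v => by simp only [map_smul, Finsupp.smul_apply, smul_eq_mul]; ring)

theorem dt_apply (f : Basis (Fin 2) K V) (u v : V) :
    dt f u v = f.repr u 0 * f.repr v 1 - f.repr u 1 * f.repr v 0 := rfl

theorem dt_self (f : Basis (Fin 2) K V) (u : V) : dt f u u = 0 := by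
  rw [dt_apply]
  ring

theorem dt_inj (f : Basis (Fin 2) K V) : Function.Injective (dt f) := by
  rw [injective_iff_map_eq_zero]
  intro u hu
  have h0 := congrArg (fun φ : Dual K V => φ (f 1)) hu
  have h1 := congrArg (fun φ : Dual K V => φ (f 0)) hu
  simp only [dt_apply, Basis.repr_self, LinearMap.zero_apply] at h0 h1
  rw [Finsupp.single_eq_same, Finsupp.single_eq_of_ne (by decide)] at h0 h1
  apply f.ext_elem
  intro i
  rw [map_zero, Finsupp.zero_apply]
  fin_cases i
  · change f.repr u 0 = 0
    linear_combination h0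
  · change f.repr u 1 = 0
    linear_combination -h1

theorem repr_op (f : Basis (Fin 2) K V) (X : Module.End K V) (u : V) (i : Fin 2) :
    f.repr (X u) i = f.repr (X (f 0)) i * f.repr u 0 + f.repr (X (f 1)) i * f.repr u 1 := by
  have h1 : u = f.repr u 0 • f 0 + f.repr u 1 • f 1 := by
    conv_lhs => rw [← f.sum_repr u]
    rw [Fin.sum_univ_two]
  conv_lhs => rw [h1]
  simp only [map_add, map_smul, Finsupp.add_apply, Finsupp.smul_apply, smul_eq_mul]
  ring

/-- The determinant of an operator. -/
def dd2 (f : Basis (Fin 2) K V) (X : Module.End K V) : K :=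
  f.repr (X (f 0)) 0 * f.repr (X (f 1)) 1 - f.repr (X (f 0)) 1 * f.repr (X (f 1)) 0

theorem dt_sim (f : Basis (Fin 2) K V) (X : Module.End K V) (u v : V) :
    dt f (X u) (X v) = dd2 f X * dt f u v := by
  rw [dt_apply, dt_apply, dd2, repr_op f X u 0, repr_op f X u 1, repr_op f X v 0,
    repr_op f X v 1]
  ring

theorem dt_tr (f : Basis (Fin 2) K V) (X : Module.End K V) (u v : V) :
    dt f (X u) v + dt f u (X v) = LinearMap.trace K V X * dt f u v := by
  have h1 : LinearMap.trace K V X = f.repr (X (f 0)) 0 + f.repr (X (f 1)) 1 := by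
    rw [LinearMap.trace_eq_matrix_trace K f, Matrix.trace, Fin.sum_univ_two, Matrix.diag_apply,
      Matrix.diag_apply, LinearMap.toMatrix_apply, LinearMap.toMatrix_apply]
  rw [h1, dt_apply, dt_apply, dt_apply, repr_op f X u 0, repr_op f X u 1, repr_op f X v 0,
    repr_op f X v 1]
  ring

/-- Functionals which vanish on a vector. -/
theorem dt_of_ker (f : Basis (Fin 2) K V) {u : V} (hu : u ≠ 0) {φ : Dual K V} (hφ : φ u = 0) :
    ∃ c : K, φ = c • dt f u := by
  have h1 : ∀ v, φ v = φ (f 0) * f.repr v 0 + φ (f 1) * f.repr v 1 := by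
    intro v
    conv_lhs => rw [← f.sum_repr v]
    rw [Fin.sum_univ_two, map_add, map_smul, map_smul, smul_eq_mul, smul_eq_mul]
    ring
  have h2 := h1 u
  rw [hφ] at h2
  by_cases h0 : f.repr u 0 = 0
  · have h3 : f.repr u 1 ≠ 0 := by
      intro h3
      apply hu
      apply f.ext_elem
      intro i
      rw [map_zero, Finsupp.zero_apply]
      fin_cases i
      · exact h0
      · exact h3
    have h4 : φ (f 1) = 0 := by
      rw [h0, mul_zero, zero_add] at h2
      exact (mul_eq_zero.1 h2.symm).resolve_right h3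
    refine ⟨-(φ (f 0) / f.repr u 1), LinearMap.ext fun v => ?_⟩
    rw [LinearMap.smul_apply, dt_apply, h1 v, h0, h4, smul_eq_mul]
    field_simp
    ring
  · refine ⟨φ (f 1) / f.repr u 0, LinearMap.ext fun v => ?_⟩
    rw [LinearMap.smul_apply, dt_apply, h1 v, smul_eq_mul]
    have h5 : φ (f 0) = -(φ (f 1) * f.repr u 1) / f.repr u 0 := by
      field_simp
      linear_combination -h2
    rw [h5]
    field_simp
    ring

end two

variable {I : Type*} [Fintype I] [DecidableEq I] {E : I → Type*} [∀ i, AddCommGroup (E i)]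
  [∀ i, Module K (E i)] [∀ i, FiniteDimensional K (E i)] {G : Type*} [Group G]
  {r : ∀ i, Representation K G (E i)} {χ : G →* K}
  (ω : (∀ i, E i) →ₗ[K] (∀ i, E i) →ₗ[K] K) (halt : ∀ u, ω u u = 0)
  (hnd : ∀ u, (∀ w, ω u w = 0) → u = 0)
  (hωρ : ∀ g u v, ω (piRep r g u) (piRep r g v) = χ g * ω u v)
  (st : I → I) (hst : ∀ i, st (st i) = i)
  (hor : ∀ i j, j ≠ st i → ∀ (u : E i) (v : E j), ω (Pi.single i u) (Pi.single j v) = 0)
  (htw : ∀ i j, i ≠ j → (finrank K (E i) = 2 → j ≠ st i) → 2 ≤ finrank K (E i) →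
    2 ≤ finrank K (E j) →
    ∀ (T : E i →ₗ[K] E j) (ψ : G → K), (∀ g u, T (r i g u) = ψ g • r j g (T u)) → T = 0)

include hnd hor hst hωρ htw in
/-- No twisted homomorphisms to the dual. -/
theorem no_dual (i j : I) (hij : i ≠ st j) (hij2 : finrank K (E i) = 2 → j ≠ i)
    (hi : 2 ≤ finrank K (E i)) (hj : 2 ≤ finrank K (E j))
    (T : E i →ₗ[K] Dual K (E j)) (ψ : G → K)
    (hT : ∀ g u v, T (r i g u) (r j g v) = ψ g * T u v) : T = 0 := by
  have hbij := par_bij ω hnd st hst hor (st j) j (hst j).symm
  let B : E (st j) ≃ₗ[K] Dual K (E j) := LinearEquiv.ofBijective _ hbij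
  have hB : ∀ w, B w = par ω (st j) j w := fun _ => rfl
  let T' : E i →ₗ[K] E (st j) := B.symm.toLinearMap.comp T
  have hBT : ∀ u, B (T' u) = T u := fun u => B.apply_symm_apply _
  have h1 := htw i (st j) hij (fun h2 h3 => hij2 h2 (by rw [← hst j, h3, hst])) hi
    (by rw [finrank_st ω hnd st hst hor]; exact hj) T'
    (fun g => ψ g * (χ g)⁻¹) (by
    intro g u
    apply B.injective
    rw [hBT, map_smul]
    ext v
    rw [LinearMap.smul_apply, hB, smul_eq_mul]
    have h2 := hT g u (r j g⁻¹ v)
    rw [r_inv'] at h2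
    rw [h2]
    have h3 := par_sim ω hωρ (st j) j g (T' u) (r j g⁻¹ v)
    rw [r_inv'] at h3
    rw [h3, ← hB, hBT]
    have := chi_ne (χ := χ) g
    field_simp)
  have h2 : T = B.toLinearMap.comp T' := by
    ext1 u
    exact (hBT u).symm
  rw [h2, h1, LinearMap.comp_zero]

variable (hirr : ∀ i, 2 ≤ finrank K (E i) → Irr (r i))
  (hnil : ∀ i, 2 ≤ finrank K (E i) → ∃ N ∈ lieT (piRep r) χ, N * N = 0 ∧
    ∃ (u : E i) (φ : Dual K (E i)), u ≠ 0 ∧ φ ≠ 0 ∧ ∀ x, N (Pi.single i x) i = φ x • u)

/-- The families of the Lie algebra with trace zero in the components of dimension two which are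
not self-dual. -/
def hz (r : ∀ i, Representation K G (E i)) (χ : G →* K) (st : I → I) :
    Submodule K (∀ i, Module.End K (E i)) where
  carrier := {X | X ∈ hh r χ ∧ ∀ i, finrank K (E i) = 2 → st i ≠ i →
    LinearMap.trace K (E i) (X i) = 0}
  add_mem' := by
    rintro X Y ⟨hX, hX'⟩ ⟨hY, hY'⟩
    exact ⟨Submodule.add_mem _ hX hY, fun i h1 h2 => by
      rw [Pi.add_apply, map_add, hX' i h1 h2, hY' i h1 h2, add_zero]⟩
  zero_mem' := ⟨Submodule.zero_mem _, fun i _ _ => by rw [Pi.zero_apply, map_zero]⟩
  smul_mem' := by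
    rintro c X ⟨hX, hX'⟩
    exact ⟨Submodule.smul_mem _ c hX, fun i h1 h2 => by
      rw [Pi.smul_apply, map_smul, hX' i h1 h2, smul_zero]⟩

theorem lieFam_hz : LieFam r (hz r χ st) where
  br := by
    rintro X ⟨hX, hX'⟩ Y ⟨hY, hY'⟩
    refine ⟨(lieFam_hh r χ).br X hX Y hY, fun i _ _ => ?_⟩
    change LinearMap.trace K (E i) (X i * Y i - Y i * X i) = 0
    rw [map_sub, LinearMap.trace_mul_comm, sub_self]
  conj := by
    rintro g X ⟨hX, hX'⟩
    refine ⟨(lieFam_hh r χ).conj g X hX, fun i h1 h2 => ?_⟩
    change LinearMap.trace K (E i) (r i g * X i * r i g⁻¹) = 0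
    rw [LinearMap.trace_mul_comm, ← mul_assoc, ← map_mul, inv_mul_cancel, map_one, one_mul]
    exact hX' i h1 h2

/-- The forms. -/
def ff (i : I) : E i →ₗ[K] Dual K (E i) := by
  classical
  exact if st i = i then par ω i i else
    if h2 : finrank K (E i) = 2 then dt (finBasisOfFinrankEq K (E i) h2) else 0

/-- The characters. -/
def cc2 (r : ∀ i, Representation K G (E i)) (χ : G →* K) (st : I → I) (i : I) (g : G) : K := by
  classical
  exact if st i = i then χ g else
    if h2 : finrank K (E i) = 2 then dd2 (finBasisOfFinrankEq K (E i) h2) (r i g) else 0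

theorem ff_self {i : I} (hi : st i = i) : ff ω st i = par ω i i := by
  unfold ff
  rw [if_pos hi]

theorem ff_two {i : I} (hi : ¬ st i = i) (h2 : finrank K (E i) = 2) :
    ff ω st i = dt (finBasisOfFinrankEq K (E i) h2) := by
  unfold ff
  rw [if_neg hi, dif_pos h2]

include halt hnd hωρ hst hor htw hirr hnil in
theorem types_hz : Types r (hz r χ st) (fun i => 2 ≤ finrank K (E i))
    (fun i => st i = i ∨ finrank K (E i) = 2) (ff ω st) (cc2 r χ st) where
  irr := hirr
  alt := by
    intro i hi u
    by_cases hs : st i = i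
    · rw [ff_self ω st hs]
      exact halt _
    · rw [ff_two ω st hs (hi.resolve_left hs)]
      exact dt_self _ u
  inj := by
    intro i hi
    by_cases hs : st i = i
    · rw [ff_self ω st hs]
      exact par_inj ω hnd st hor i i hs.symm
    · rw [ff_two ω st hs (hi.resolve_left hs)]
      exact dt_inj _
  sim := by
    intro i hi g u v
    by_cases hs : st i = i
    · rw [ff_self ω st hs, par_sim ω hωρ i i g u v]
      unfold cc2
      rw [if_pos hs]
    · rw [ff_two ω st hs (hi.resolve_left hs), dt_sim]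
      unfold cc2
      rw [if_neg hs, dif_pos (hi.resolve_left hs)]
  sp := by
    intro i hi X hX u v
    by_cases hs : st i = i
    · rw [ff_self ω st hs]
      have h1 := lieT_sp (piRep r) χ ω hωρ hX.1 (Pi.single i u) (Pi.single i v)
      rw [blk_single, blk_single] at h1
      exact h1
    · rw [ff_two ω st hs (hi.resolve_left hs), dt_tr, hX.2 i (hi.resolve_left hs) hs, zero_mul]
  nf := by
    intro i hi his β ψ hβ hsim
    push Not at his
    have h1 := no_dual ω hnd hωρ st hst hor htw i i (fun h => his.1 h.symm)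
      (fun h => absurd h his.2) hi hi β ψ hsim
    have h2 : 0 < finrank K (E i) := by omega
    have _ : Nontrivial (E i) := Module.nontrivial_of_finrank_pos h2
    obtain ⟨u, hu⟩ := _root_.exists_ne (0 : E i)
    apply hu
    apply hβ
    rw [h1, LinearMap.zero_apply, LinearMap.zero_apply]
  nil := by
    intro i hi
    obtain ⟨N, hN, hN2, u, φ, hu, hφ, hNi⟩ := hnil i hi
    obtain ⟨N', hN', rfl⟩ := lieT_block ω hnd hωρ hN
    have h1 : ∀ j, N' j * N' j = 0 := by
      intro j
      ext x
      have h2 := congrArg (fun f : Module.End K (∀ i, E i) => f (Pi.single j x) j) hN2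
      simp only [Module.End.mul_apply, blk_single, Pi.single_eq_same, LinearMap.zero_apply,
        Pi.zero_apply] at h2
      exact h2
    have h2 : N' i = φ.smulRight u := by
      ext x
      have h3 := hNi x
      rw [blk_single, Pi.single_eq_same] at h3
      rw [h3, LinearMap.smulRight_apply]
    refine ⟨N', ⟨hN', fun j _ _ => ?_⟩, h1, u, φ, hu, hφ, ?_, h2⟩
    · have h4 : IsNilpotent (N' j) := ⟨2, by rw [pow_two]; exact h1 j⟩
      exact (LinearMap.isNilpotent_trace_of_isNilpotent h4).eq_zero
    have h3 := h1 i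
    rw [h2] at h3
    obtain ⟨v, hv⟩ : ∃ v, φ v ≠ 0 := by
      by_contra h4
      push Not at h4
      exact hφ (LinearMap.ext h4)
    have h4 := congrArg (fun f : Module.End K (E i) => f v) h3
    simp only [Module.End.mul_apply, LinearMap.smulRight_apply, map_smul,
      LinearMap.zero_apply] at h4
    rcases smul_eq_zero.1 h4 with h5 | h5
    · exact absurd h5 hv
    · exact (smul_eq_zero.1 h5).resolve_right hu

include halt hnd hωρ hst hor htw hirr hnil in
/-- All rank one operators of one component. -/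
theorem exists_elem (i : I) (hi : 2 ≤ finrank K (E i)) (u : E i) (φ : Dual K (E i))
    (hφ : W522.U.Ty (fun i => st i = i) (fun i => par ω i i) i u φ) :
    ∃ X ∈ hh r χ, X i = φ.smulRight u ∧ ∀ j, j ≠ i → j ≠ st i → X j = 0 := by
  classical
  by_cases hu0 : u = 0
  · refine ⟨0, Submodule.zero_mem _, ?_, fun _ _ _ => rfl⟩
    rw [hu0]
    ext v
    simp
  have hT := types_hz ω halt hnd hωρ st hst hor htw hirr hnil
  have h𝔥 : LieFam r (hz r χ st) := lieFam_hz st
  have hφ' : Ty (fun i => st i = i ∨ finrank K (E i) = 2) (ff ω st) i u φ := by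
    refine ⟨hφ.1, fun h => ?_⟩
    by_cases hs : st i = i
    · rw [ff_self ω st hs]
      exact hφ.2 hs
    · rw [ff_two ω st hs (h.resolve_left hs)]
      exact dt_of_ker _ hu0 hφ.1
  obtain ⟨X, hX, hXi, hXj⟩ := full_indep h𝔥 hT hi
    ((Finset.univ.erase i).erase (st i)) (by
      intro j hj
      rw [Finset.mem_erase, Finset.mem_erase] at hj
      by_cases hj2 : 2 ≤ finrank K (E j)
      · have hji : i ≠ st j := fun h => hj.1 (by rw [h, hst])
        refine independent h𝔥 hT hi hj2 ⟨?_, ?_⟩ ⟨?_, ?_⟩
        · intro T ψ h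
          exact htw i j (Ne.symm hj.2.1) (fun _ => hj.1) hi hj2 T ψ h
        · intro T ψ h
          refine no_dual ω hnd hωρ st hst hor htw i j hji (fun _ => hj.2.1) hi hj2 T ψ
            fun g u v => ?_
          rw [h g u, LinearMap.smul_apply, smul_eq_mul]
          congr 1
          change T u (r j g⁻¹ (r j g v)) = _
          rw [r_inv]
        · intro T ψ h
          exact htw j i hj.2.1 (fun _ => hji) hj2 hi T ψ h
        · intro T ψ h
          refine no_dual ω hnd hωρ st hst hor htw j i (fun h => hj.1 h) (fun _ => hj.2.1.symm) hj2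
            hi T ψ fun g u v => ?_
          rw [h g u, LinearMap.smul_apply, smul_eq_mul]
          congr 1
          change T u (r i g⁻¹ (r i g v)) = _
          rw [r_inv]
      · obtain ⟨N, hN, hN2, u, φ, hu, hφ, hφu, hNi⟩ := hT.nil i hi
        refine ⟨N, hN, ?_, u, φ, hu, hφ, hφu, hNi⟩
        -- a nilpotent operator in dimension at most one
        have h1 : finrank K (E j) ≤ 1 := by omega
        ext x
        rw [LinearMap.zero_apply]
        by_contra hx
        obtain ⟨c, hc⟩ := (finrank_le_one_iff.1 h1).choose_spec x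
        obtain ⟨c', hc'⟩ := (finrank_le_one_iff.1 h1).choose_spec (N j x)
        set v := (finrank_le_one_iff.1 h1).choose with hv
        have h2 : N j (N j x) = 0 := by
          rw [← Module.End.mul_apply, hN2]
          rfl
        have hc'0 : c' ≠ 0 := by
          rintro rfl
          rw [zero_smul] at hc'
          exact hx hc'.symm
        have h3 : N j x = (c * c'⁻¹) • N j (N j x) := by
          conv_lhs => rw [← hc]
          rw [← hc', map_smul, map_smul, smul_smul, mul_assoc, inv_mul_cancel₀ hc'0, mul_one]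
        rw [h2, smul_zero] at h3
        exact hx h3) u φ hφ'
  refine ⟨X, hX.1, hXi, fun j h1 h2 => hXj j ?_⟩
  rw [Finset.mem_erase, Finset.mem_erase]
  exact ⟨h2, h1, Finset.mem_univ _⟩

end

end Pool.Agent.Y4.T
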