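import Mathlib
import Pool.Agent.Y4.T.B5

/-!
# Relations between determinants
-/

set_option linter.unusedSectionVars false

namespace Pool.Agent.Y4.T

open Module Pool.Agent.H204R3.SP Pool.Agent.H204R3.GP Pool.Agent.W522.U

noncomputable section

variable {K : Type*} [Field K] [CharZero K]
  {I : Type*} [Fintype I] [DecidableEq I] {E : I → Type*} [∀ i, AddCommGroup (E i)]
  [∀ i, Module K (E i)] [∀ i, FiniteDimensional K (E i)] {G : Type*} [Group G]
  {r : ∀ i, Representation K G (E i)} {χ : G →* K}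
  (ω : (∀ i, E i) →ₗ[K] (∀ i, E i) →ₗ[K] K) (halt : ∀ u, ω u u = 0)
  (hnd : ∀ u, (∀ w, ω u w = 0) → u = 0)
  (hωρ : ∀ g u v, ω (piRep r g u) (piRep r g v) = χ g * ω u v)
  (st : I → I) (hst : ∀ i, st (st i) = i)
  (hor : ∀ i j, j ≠ st i → ∀ (u : E i) (v : E j), ω (Pi.single i u) (Pi.single j v) = 0)
  (htw : ∀ i j, i ≠ j → (finrank K (E i) = 2 → j ≠ st i) → 2 ≤ finrank K (E i) →
    2 ≤ finrank K (E j) →
    ∀ (T : E i →ₗ[K] E j) (ψ : G → K), (∀ g u, T (r i g u) = ψ g • r j g (T u)) → T = 0)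
  (hirr : ∀ i, 2 ≤ finrank K (E i) → Irr (r i))
  (hnil : ∀ i, 2 ≤ finrank K (E i) → ∃ N ∈ lieT (piRep r) χ, N * N = 0 ∧
    ∃ (u : E i) (φ : Dual K (E i)), u ≠ 0 ∧ φ ≠ 0 ∧ ∀ x, N (Pi.single i x) i = φ x • u)

include halt hnd hωρ hst hor htw hirr hnil in
theorem det_rel [IsAlgClosed K] (γ : G) {m : ℕ}
    (φ : MultilinearMap K (fun _ : Fin m × Fin 2 => ∀ i, E i) K)
    (Δ : Subgroup G) (hΔ : Δ.FiniteIndex)
    (hφ : ∀ s ∈ Δ, ∀ v, φ (fun k => piRep r s (v k)) = χ s ^ m * φ v)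
    (M : ℕ) (hM : γ ^ M ∈ Δ) (t : Fin m × Fin 2 → I) (v : ∀ k, E (t k))
    (hv : φ (fun k => Pi.single (t k) (v k)) ≠ 0) (a : I → ℤ)
    (ha : ∀ i, (finrank K (E i) : ℤ) * a i = (cnt t i : ℤ) - cnt t (st i)) :
    (∏ i, LinearMap.det (r i γ) ^ a i) ^ M = 1 := by
  obtain ⟨n, e, lab, α, hlab, hlab', he0, he1, heα, hαα⟩ :=
    exists_graded ω halt hnd hωρ st hst hor γ
  obtain ⟨J, hJt, hJ⟩ := exists_type e lab hlab φ t v hv
  have hχ := chi_ne (χ := χ) γ
  have hα0 : ∀ x, α x ≠ 0 := by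
    intro x h
    apply hχ
    rw [← hαα x, h, zero_mul]
  have hw : ∀ y, a (lab y) = (cnt J y : ℤ) - cnt J y.swap := by
    intro y
    have h1 := weight_one ω halt hnd hωρ st hst hor htw hirr hnil e lab hlab hlab' he0 he1 φ
      ⟨Δ, hΔ, hφ⟩ J hJ y
    have h2 : (fun k => lab (J k)) = t := funext hJt
    rw [h2, ← ha] at h1
    have h3 : (finrank K (E (lab y)) : ℤ) ≠ 0 := by
      have := finrank_pos_lab e lab hlab y
      omega
    exact (mul_left_cancel₀ h3 h1).symm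
  -- the product of the eigenvalues
  have hP1 : χ γ ^ (M * m) = ∏ k, α (J k) ^ M := by
    refine gen_eig φ (piRep r γ ^ M) _ (fun v => ?_) _ (fun k => e (J k)) (fun k => ?_) hJ
    · rw [← piRep_pow, hφ _ hM, map_pow, ← pow_mul]
    · refine gen_pow _ _ _ ?_
      rw [hlab (J k)]
      exact gen_single γ _ _ (heα _)
  have hP2 : ∏ k, α (J k).swap ^ M = ∏ k, α (J k) ^ M := by
    have h1 : (∏ k, α (J k) ^ M) * ∏ k, α (J k).swap ^ M = χ γ ^ (M * m) * χ γ ^ (M * m) := by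
      rw [← Finset.prod_mul_distrib]
      have h2 : ∀ k, α (J k) ^ M * α (J k).swap ^ M = χ γ ^ M := by
        intro k
        rw [← mul_pow, hαα]
      rw [Finset.prod_congr rfl (fun k _ => h2 k), Finset.prod_const, Finset.card_univ,
        Fintype.card_prod, Fintype.card_fin, Fintype.card_fin, ← pow_mul, ← pow_add]
      congr 1
      ring
    rw [← hP1] at h1 ⊢
    exact mul_left_cancel₀ (pow_ne_zero _ hχ) h1
  have hP3 : ∏ y, (α y ^ M) ^ a (lab y) = 1 := by
    have h1 : ∀ y, (α y ^ M) ^ a (lab y) = (α y ^ M) ^ cnt J y / (α y ^ M) ^ cnt J y.swap := by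
      intro y
      rw [hw, zpow_sub₀ (pow_ne_zero _ (hα0 y)), zpow_natCast, zpow_natCast]
    rw [Finset.prod_congr rfl (fun y _ => h1 y), Finset.prod_div_distrib, div_eq_one_iff_eq]
    · rw [← prod_cnt J (fun y => α y ^ M), ← hP2, prod_cnt J (fun y => α y.swap ^ M)]
      refine Finset.prod_bij' (fun x _ => x.swap) (fun x _ => x.swap) ?_ ?_ ?_ ?_ ?_
      · intro x _; exact Finset.mem_univ _
      · intro x _; exact Finset.mem_univ _
      · intro x _; exact Sum.swap_swap x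
      · intro x _; exact Sum.swap_swap x
      · intro x _
        rw [Sum.swap_swap]
    · exact Finset.prod_ne_zero_iff.2 fun y _ => pow_ne_zero _ (pow_ne_zero _ (hα0 y))
  have hdet : ∀ i, LinearMap.det (r i γ) = ∏ y ∈ Finset.univ.filter (fun y => lab y = i), α y := by
    intro i
    obtain ⟨f, hf⟩ := exists_fb e lab hlab i
    rw [det_gen f (r i γ) (fun y => α y.1) (fun y => by
      rw [hf]
      obtain ⟨y, rfl⟩ := y
      exact heα y)]
    exact (Finset.prod_subtype _ (fun y => by simp) α).symm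
  rw [← hP3, ← Finset.prod_fiberwise (g := lab)]
  rw [← Finset.prod_pow]
  refine Finset.prod_congr rfl fun i _ => ?_
  rw [hdet, ← zpow_natCast, ← zpow_mul, mul_comm, zpow_mul, zpow_natCast, ← Finset.prod_pow,
    ← Finset.prod_zpow]
  refine Finset.prod_congr rfl fun y hy => ?_
  rw [(Finset.mem_filter.1 hy).2]


end

end Pool.Agent.Y4.T
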